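import Pool.Agent.DW.FIN

/-!
# Dimensions of products of spaces which contain the odd zeta values of a short interval

`V * P` is the `ℚ`-span of the products `v p` (Mathlib's multiplication of submodules of `ℝ`). There
are `c, C > 0` and `x0` such that, if `V` and `P ≠ 0` are finite-dimensional `ℚ`-subspaces of `ℝ`,
`x ≥ x0`, `C x^(2/3) (dim P log x)^(1/3) ≤ W ≤ x` and `ζ(i) ∈ V` for all odd `i` in `(x, x + W]`,
then `dim V P ≥ c (dim P)^(1/3) W / (x^(1/3) (log x)^(2/3))`.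
-/

theorem Pool.Agent.Results.MP_c2395a_nt.DimensionProducts.result :
    ∃ c C x0 : ℝ, 0 < c ∧ 0 < C ∧ ∀ (V P : Submodule ℚ ℝ) [Module.Finite ℚ V]
      [Module.Finite ℚ P], P ≠ ⊥ → ∀ x W : ℕ, x0 ≤ x →
      C * (x : ℝ) ^ (2 / 3 : ℝ) * (Module.finrank ℚ P * Real.log x) ^ (1 / 3 : ℝ) ≤ W → W ≤ x →
      (∀ i : ℕ, Odd i → x < i → i ≤ x + W → (∑' n : ℕ, 1 / ((n : ℝ) + 1) ^ i) ∈ V) →
      c * (Module.finrank ℚ P : ℝ) ^ (1 / 3 : ℝ) * (W : ℝ) /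
          ((x : ℝ) ^ (1 / 3 : ℝ) * (Real.log x) ^ (2 / 3 : ℝ)) ≤
        (Module.finrank ℚ (V * P : Submodule ℚ ℝ) : ℝ) :=
  Pool.Agent.DW.dw_main
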