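import Pool.Agent.OZ.MAIN

/-!
# At least one of `ζ(7), ζ(9), ζ(11), ζ(13)` is irrational

Write `L = 16 m + 1`, where `8 m + 1` is a large prime, `Y = (2 t + L) ^ 2` and let `w(t)` be
`2 t + L` divided by the product of the following three symmetric blocks of factors:
`∏_{0 ≤ u ≤ L} (t + u) ^ 2`, `∏_{m ≤ u ≤ L - m} (t + u) ^ 4` and `∏_{2 m ≤ u ≤ L - 2 m} (t + u) ^ 4`.
For a polynomial `h` of small degree the fourth derivative of `w(t) h(Y)`, summed over `t ≥ 1`, is
a rational combination of `1, ζ(7), ζ(9), ζ(11), ζ(13)`: the parity of the very well poised weight
removes the even zeta values, `ζ(3)` does not occur after four derivatives, and the coefficient of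
`ζ(5)` is a sum of residues, which vanishes. Hence, if all four values were rational, the Hankel
determinant of size `34 m + 5` of this functional would be a rational number. It is estimated

* from above, by potential theory: a Hermite type basis at suitable nodes in the upper half plane
  and on the real line and a bound of each row by a contour integral, with a verified numerical
  computation for the energies of an explicit piecewise constant node distribution;
* from below, by the product formula, with sharp lower bounds for all its `q`-adic valuations,
  obtained from a local decomposition at the poles in the residue classes modulo `q`.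

The two estimates contradict each other if the determinant is not zero; this is read off modulo the
prime `p = 8 m + 1`, where the determinant decomposes into small blocks.
-/

namespace Pool.Agent.Results.MP_c2395a_nt.SevenToThirteen

/-- At least one of `ζ(7), ζ(9), ζ(11), ζ(13)` is irrational. -/
theorem result : Irrational (∑' n : ℕ, 1 / ((n : ℝ) + 1) ^ 7) ∨
    Irrational (∑' n : ℕ, 1 / ((n : ℝ) + 1) ^ 9) ∨
    Irrational (∑' n : ℕ, 1 / ((n : ℝ) + 1) ^ 11) ∨
    Irrational (∑' n : ℕ, 1 / ((n : ℝ) + 1) ^ 13) :=
  Pool.Agent.OZ.exists_irrational

end Pool.Agent.Results.MP_c2395a_nt.SevenToThirteen
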