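import Pool.Agent.SID.ONE
import Pool.Agent.SI.NRF

/-!
# Odd zeta values outside real number fields, in short intervals
-/

namespace Pool.Agent.Results.MP_c2395a_nt.ShortIntervals

/-- There are `c > 0` and `x0` such that for every real number field `K`, all real `x ≥ x0` and
`0 < y ≤ x`, with `l = [K : ℚ] log x (1 + log (x / y))` and `x l ≤ c y²`, and every `K`-subspace `V`
of `ℝ` of finite dimension `d`, the number of odd integers `i` with `x < i ≤ x + y` and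
`ζ(i) ∉ K + V` is at least
`max (c y / √(x l) - d, c min (y² / (x l), y ^ (4/3) / (x² l) ^ (1/3)) - √(d y))`. -/
theorem result : ∃ c : ℝ, 0 < c ∧ ∃ x0 : ℝ,
    ∀ (K : IntermediateField ℚ ℝ) [FiniteDimensional ℚ K], ∀ x y l : ℝ, x0 ≤ x → 0 < y → y ≤ x →
    l = Module.finrank ℚ K * Real.log x * (1 + Real.log (x / y)) → x * l ≤ c * y ^ 2 →
    ∀ V : Submodule K ℝ, Module.Finite K V →
    max (c * (y / √(x * l)) - Module.finrank K V)
        (c * min (y ^ 2 / (x * l)) (y ^ (4 / 3 : ℝ) / (x ^ 2 * l) ^ (1 / 3 : ℝ)) -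
          √(Module.finrank K V * y)) ≤
      (({i : ℕ | Odd i ∧ x < i ∧ (i : ℝ) ≤ x + y ∧
        ∀ v ∈ V, ∀ q : K, (∑' n : ℕ, 1 / ((n : ℝ) + 1) ^ i) ≠ q + v} : Set ℕ).ncard : ℝ) :=
  Pool.Agent.SID.sid_one_of (Pool.Agent.SID.sid_core_of Pool.Agent.SI.nr_all)
    (Pool.Agent.SK.si_core2K_of Pool.Agent.SI.nr_all)

end Pool.Agent.Results.MP_c2395a_nt.ShortIntervals
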