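import Pool.Agent.Z5.Main

/-!
# `ζ(5)` is irrational

Write `N = 6 p` (`p` a large prime), `L = N - 1`, `w(t) = (2 t + L) / ∏_{u=0}^{L} (t + u)^6`,
`Y = (2 t + L)^2`. For a polynomial `h` of small degree
`F(h) = ∑_{t ≥ 1} w(t) h(Y(t)) = ρ₀(h) + ρ₃(h) ζ(3) + ρ₅(h) ζ(5)` with rational coefficients. The proof
studies the mixed determinant of size `10 p` with the `5 p` rows `F(Y^i Y^j)` and the `5 p` rows
`ρ₃(Y^i Y^j)`: row operations remove `ζ(3)`, so that it is a polynomial in `ζ(5)` alone with rational
coefficients. If `ζ(5)` were rational, the determinant would be a rational number whose absolute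
value is estimated in two ways:

* from above, by potential theory (change to Lagrange bases at suitable nodes and a row-wise bound);
* from below, by the product formula, with sharp lower bounds for all `q`-adic valuations (duality
  with a determinant of local expansions at the poles, Laplace expansion over the residue classes of
  the poles modulo `q`, congruences modulo `q` and `q^2` for large `q`).

The two estimates contradict each other, once the determinant is known not to vanish; this is read
off modulo `p` from the determinant for `N = 6`.
-/

namespace Pool.Agent.Results.MP_c2395a_nt.ZetaFive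

/-- `ζ(5) = ∑_{n ≥ 1} 1 / n ^ 5` is irrational. -/
theorem result : Irrational (∑' n : ℕ, 1 / ((n : ℝ) + 1) ^ 5) :=
  Pool.Agent.Z5.irrational_zt_five

end Pool.Agent.Results.MP_c2395a_nt.ZetaFive
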